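import Mathlib

set_option autoImplicit false

open Filter Topology

namespace Pool.Agent.U501.CS

/-- A continuous function `u` on the open set `Ω ⊆ ℂⁿ` is plurisubharmonic if it satisfies the
(local) submean inequality on complex lines: for all `a ∈ Ω` and all `b ∈ ℂⁿ`, the value `u a` is
at most the mean of `τ ↦ u (a + τ b)` over the circle `|τ| = r`, for all sufficiently small
`r > 0`. -/
def Psh {n : ℕ} (Ω : Set (Fin n → ℂ)) (u : (Fin n → ℂ) → ℝ) : Prop :=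
  ContinuousOn u Ω ∧ ∀ a ∈ Ω, ∀ b : Fin n → ℂ, ∀ᶠ r in 𝓝[>] (0:ℝ),
    u a ≤ Real.circleAverage (fun τ : ℂ => u (a + τ • b)) 0 r

/-- `φ` is strictly plurisubharmonic at `z`: `φ - ε |w|²` is plurisubharmonic in a neighbourhood
`U ⊆ Ω` of `z`, for some `ε > 0`. -/
def StrictlyPshAt {n : ℕ} (Ω : Set (Fin n → ℂ)) (φ : (Fin n → ℂ) → ℝ) (z : Fin n → ℂ) : Prop :=
  ∃ U : Set (Fin n → ℂ), IsOpen U ∧ z ∈ U ∧ U ⊆ Ω ∧
    ∃ ε : ℝ, 0 < ε ∧ Psh U (fun w => φ w - ε * ∑ i, ‖w i‖ ^ 2)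

/-- The `C^s`-core of `Ω`: the points of `Ω` at which no `C^s`-smooth plurisubharmonic function on
`Ω` that is bounded from above is strictly plurisubharmonic. -/
def core {n : ℕ} (s : ℕ∞) (Ω : Set (Fin n → ℂ)) : Set (Fin n → ℂ) :=
  {z | z ∈ Ω ∧ ¬ ∃ φ : (Fin n → ℂ) → ℝ, ContDiffOn ℝ s φ Ω ∧ Psh Ω φ ∧
    (∃ M : ℝ, ∀ w ∈ Ω, φ w ≤ M) ∧ StrictlyPshAt Ω φ z}

theorem core_mono {n : ℕ} (Ω : Set (Fin n → ℂ)) {s t : ℕ∞} (h : s ≤ t) :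
    core s Ω ⊆ core t Ω := by
  rintro z ⟨hz, hn⟩
  refine ⟨hz, ?_⟩
  rintro ⟨φ, h1, h2⟩
  exact hn ⟨φ, h1.of_le (by exact_mod_cast h), h2⟩

end Pool.Agent.U501.CS
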