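import Pool.Agent.U501.CS.Sub
import Pool.Agent.U501.CS.Defs

set_option autoImplicit false

open Complex Metric Set Filter Topology

namespace Pool.Agent.U501.CS

variable {n : ℕ}

/-- the submean inequality at a point -/
def SubAt (u : (Fin n → ℂ) → ℝ) (p : Fin n → ℂ) : Prop :=
  ∀ b : Fin n → ℂ, ∀ᶠ r in 𝓝[>] (0:ℝ), u p ≤ Real.circleAverage (fun τ : ℂ => u (p + τ • b)) 0 r

theorem line_mem {U : Set (Fin n → ℂ)} {p : Fin n → ℂ} (hU : U ∈ 𝓝 p) (b : Fin n → ℂ) :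
    ∃ δ > 0, ∀ τ : ℂ, ‖τ‖ ≤ δ → p + τ • b ∈ U := by
  have h : Tendsto (fun τ : ℂ => p + τ • b) (𝓝 0) (𝓝 p) := by
    have : Continuous fun τ : ℂ => p + τ • b := by fun_prop
    simpa using this.tendsto 0
  obtain ⟨δ, hδ, hball⟩ := Metric.nhds_basis_closedBall.mem_iff.mp (h hU)
  exact ⟨δ, hδ, fun τ hτ => hball (by simpa using hτ)⟩

theorem line_ci {U : Set (Fin n → ℂ)} {p b : Fin n → ℂ} {δ : ℝ}
    (h : ∀ τ : ℂ, ‖τ‖ ≤ δ → p + τ • b ∈ U) {u : (Fin n → ℂ) → ℝ} (hu : ContinuousOn u U)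
    {r : ℝ} (hr : 0 < r) (hrδ : r < δ) : CircleIntegrable (fun τ : ℂ => u (p + τ • b)) 0 r := by
  refine ci hr.le (hu.comp (by fun_prop) fun τ hτ => h τ ?_)
  rw [mem_sphere, dist_zero_right] at hτ
  rw [hτ]; exact hrδ.le

theorem SubAt.mono {u F : (Fin n → ℂ) → ℝ} {p : Fin n → ℂ} {U : Set (Fin n → ℂ)} (hU : U ∈ 𝓝 p)
    (hF : ContinuousOn F U) (hu : ContinuousOn u U) (h : SubAt F p) (hp : u p ≤ F p)
    (hle : ∀ z ∈ U, F z ≤ u z) : SubAt u p := by
  intro b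
  obtain ⟨δ, hδ, hm⟩ := line_mem hU b
  filter_upwards [h b, Ioo_mem_nhdsGT hδ] with r h1 h2
  refine hp.trans (h1.trans (Real.circleAverage_mono (line_ci hm hF h2.1 h2.2)
    (line_ci hm hu h2.1 h2.2) ?_))
  intro τ hτ
  rw [abs_of_pos h2.1, mem_sphere, dist_zero_right] at hτ
  exact hle _ (hm τ (by rw [hτ]; exact h2.2.le))

theorem SubAt.add {F G : (Fin n → ℂ) → ℝ} {p : Fin n → ℂ} {U : Set (Fin n → ℂ)} (hU : U ∈ 𝓝 p)
    (hFc : ContinuousOn F U) (hGc : ContinuousOn G U) (hF : SubAt F p) (hG : SubAt G p) :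
    SubAt (fun z => F z + G z) p := by
  intro b
  obtain ⟨δ, hδ, hm⟩ := line_mem hU b
  filter_upwards [hF b, hG b, Ioo_mem_nhdsGT hδ] with r h1 h2 h3
  rw [Real.circleAverage_fun_add (line_ci hm hFc h3.1 h3.2) (line_ci hm hGc h3.1 h3.2)]
  linarith

theorem SubAt.const_mul {F : (Fin n → ℂ) → ℝ} {p : Fin n → ℂ} (hF : SubAt F p) {c : ℝ}
    (hc : 0 ≤ c) : SubAt (fun z => c * F z) p := by
  intro b
  filter_upwards [hF b] with r h1
  have : Real.circleAverage (fun τ : ℂ => c * F (p + τ • b)) 0 r =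
      c * Real.circleAverage (fun τ : ℂ => F (p + τ • b)) 0 r :=
    Real.circleAverage_fun_smul (a := c) (f := fun τ : ℂ => F (p + τ • b))
  rw [this]
  exact mul_le_mul_of_nonneg_left h1 hc

theorem subAt_const (c : ℝ) (p : Fin n → ℂ) : SubAt (fun _ => c) p := by
  intro b
  refine Eventually.of_forall fun r => ?_
  rw [Real.circleAverage_const]

theorem SubAt.max {F G : (Fin n → ℂ) → ℝ} {p : Fin n → ℂ} {U : Set (Fin n → ℂ)} (hU : U ∈ 𝓝 p)
    (hFc : ContinuousOn F U) (hGc : ContinuousOn G U) (hF : SubAt F p) (hG : SubAt G p) :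
    SubAt (fun z => max (F z) (G z)) p := by
  rcases le_total (F p) (G p) with h | h
  · exact hG.mono hU hGc (ContinuousOn.sup hFc hGc) (max_le h le_rfl) fun z _ => le_max_right _ _
  · exact hF.mono hU hFc (ContinuousOn.sup hFc hGc) (max_le le_rfl h) fun z _ => le_max_left _ _

theorem norm_avg {h : ℂ → ℂ} {r : ℝ} (hr : 0 < r) (hh : DifferentiableOn ℂ h (closedBall 0 r)) :
    ‖h 0‖ ≤ Real.circleAverage (fun z => ‖h z‖) 0 r := by
  by_cases h0 : h 0 = 0
  · rw [h0, norm_zero]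
    exact Real.circleAverage_nonneg_of_nonneg fun x _ => norm_nonneg _
  have hn : ‖h 0‖ ≠ 0 := norm_ne_zero_iff.mpr h0
  set c : ℂ := (starRingEnd ℂ (h 0)) / ‖h 0‖ with hc
  have hcn : ‖c‖ = 1 := by
    rw [hc, norm_div, RCLike.norm_conj, Complex.norm_real, norm_norm, div_self hn]
  have hch : c * h 0 = ‖h 0‖ := by
    rw [hc, div_mul_eq_mul_div, ← Complex.normSq_eq_conj_mul_self, Complex.normSq_eq_norm_sq]
    rw [div_eq_iff (by exact_mod_cast hn)]
    push_cast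
    ring
  have h1 := avg_lin Complex.reCLM hr (hh.const_mul c)
  rw [hch, Complex.reCLM_apply, Complex.ofReal_re] at h1
  rw [← h1]
  have hcont : ContinuousOn h (sphere 0 r) := hh.continuousOn.mono sphere_subset_closedBall
  refine Real.circleAverage_mono (ci hr.le ?_) (ci hr.le hcont.norm) ?_
  · exact Complex.reCLM.continuous.comp_continuousOn (continuousOn_const.mul hcont)
  · intro x _
    calc (Complex.reCLM (c * h x)) = (c * h x).re := rfl
      _ ≤ ‖c * h x‖ := Complex.re_le_norm _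
      _ = ‖h x‖ := by rw [norm_mul, hcn, one_mul]

theorem rpow_avg {h : ℂ → ℂ} {δ : ℝ} (hδ : 0 < δ) (hh : DifferentiableOn ℂ h (closedBall 0 δ))
    {p : ℝ} (hp : 0 < p) :
    ∀ᶠ r in 𝓝[>] (0:ℝ), ‖h 0‖ ^ p ≤ Real.circleAverage (fun z => ‖h z‖ ^ p) 0 r := by
  by_cases h0 : h 0 = 0
  · rw [h0, norm_zero, Real.zero_rpow hp.ne']
    exact Eventually.of_forall fun r =>
      Real.circleAverage_nonneg_of_nonneg fun x _ => Real.rpow_nonneg (norm_nonneg _) _
  have hcont : ContinuousAt h 0 := hh.continuousOn.continuousAt (closedBall_mem_nhds _ hδ)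
  have h2 : ∀ᶠ z in 𝓝 (0:ℂ), h z / h 0 ∈ slitPlane := by
    have h3 : ContinuousAt (fun z => h z / h 0) 0 := hcont.div_const _
    refine h3.eventually (isOpen_slitPlane.mem_nhds ?_)
    show h 0 / h 0 ∈ slitPlane
    rw [div_self h0]
    exact one_mem_slitPlane
  obtain ⟨ε, hε, hball⟩ := Metric.nhds_basis_closedBall.mem_iff.mp h2
  filter_upwards [Ioo_mem_nhdsGT hδ, Ioo_mem_nhdsGT hε] with r h3 h4
  have hsub : closedBall (0:ℂ) r ⊆ closedBall 0 δ := closedBall_subset_closedBall h3.2.le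
  have hsub' : closedBall (0:ℂ) r ⊆ closedBall 0 ε := closedBall_subset_closedBall h4.2.le
  have hg : DifferentiableOn ℂ (fun z => (h z / h 0) ^ (p:ℂ)) (closedBall 0 r) := by
    refine ((hh.mono hsub).div_const _).cpow_const fun z hz => ?_
    exact hball (hsub' hz)
  have h5 := norm_avg h3.1 hg
  have hn : 0 < ‖h 0‖ := norm_pos_iff.mpr h0
  simp only [norm_cpow_real, norm_div, div_self hn.ne', Real.one_rpow] at h5
  have h6 : Real.circleAverage (fun z => ‖h z‖ ^ p) 0 r =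
      ‖h 0‖ ^ p * Real.circleAverage (fun z => (‖h z‖ / ‖h 0‖) ^ p) 0 r := by
    rw [← smul_eq_mul, ← Real.circleAverage_fun_smul]
    congr 1
    funext z
    rw [smul_eq_mul, ← Real.mul_rpow (norm_nonneg _) (by positivity), mul_div_cancel₀ _ hn.ne']
  rw [h6]
  have h7 : 0 ≤ ‖h 0‖ ^ p := by positivity
  nlinarith

theorem subAt_norm {f : (Fin n → ℂ) → ℂ} {p : Fin n → ℂ} {U : Set (Fin n → ℂ)} (hU : U ∈ 𝓝 p)
    (hf : DifferentiableOn ℂ f U) : SubAt (fun z => ‖f z‖) p := by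
  intro b
  obtain ⟨δ, hδ, hm⟩ := line_mem hU b
  filter_upwards [Ioo_mem_nhdsGT hδ] with r h2
  have h3 : DifferentiableOn ℂ (fun τ : ℂ => f (p + τ • b)) (closedBall 0 r) := by
    refine hf.comp (by fun_prop) fun τ hτ => hm τ ?_
    rw [mem_closedBall, dist_zero_right] at hτ
    exact hτ.trans h2.2.le
  have := norm_avg h2.1 h3
  simpa using this

theorem subAt_rpow {f : (Fin n → ℂ) → ℂ} {p : Fin n → ℂ} {U : Set (Fin n → ℂ)} (hU : U ∈ 𝓝 p)
    (hf : DifferentiableOn ℂ f U) {q : ℝ} (hq : 0 < q) : SubAt (fun z => ‖f z‖ ^ q) p := by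
  intro b
  obtain ⟨δ, hδ, hm⟩ := line_mem hU b
  have h3 : DifferentiableOn ℂ (fun τ : ℂ => f (p + τ • b)) (closedBall 0 δ) := by
    refine hf.comp (by fun_prop) fun τ hτ => hm τ ?_
    rwa [mem_closedBall, dist_zero_right] at hτ
  have := rpow_avg hδ h3 hq
  simpa using this

end Pool.Agent.U501.CS
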