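import Pool.Agent.U501.CS.Sub
import Pool.Agent.U501.CS.Defs

set_option autoImplicit false

open Complex Metric Set Filter Topology

namespace Pool.Agent.U501.CS

variable {n : ℕ}

/-- submean property on a complex line -/
theorem wsub_line {Ω : Set (Fin n → ℂ)} {u : (Fin n → ℂ) → ℝ} (hu : Psh Ω u)
    {p v : Fin n → ℂ} {a : ℂ} (ha : p + a • v ∈ Ω) : WSub (fun t : ℂ => u (p + t • v)) a := by
  intro η hη
  filter_upwards [hu.2 _ ha v] with r hr
  have h1 : Real.circleAverage (fun τ : ℂ => u (p + a • v + τ • v)) 0 r =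
      Real.circleAverage (fun t : ℂ => u (p + t • v)) a r := by
    rw [← Real.circleAverage_map_add_const (f := fun t : ℂ => u (p + t • v)) (c := a)]
    congr 1
    funext z
    rw [add_smul, add_comm (z • v), ← add_assoc]
  rw [h1] at hr
  have : 0 ≤ η * r ^ 2 := by positivity
  linarith

/-- weak submean property along a holomorphic curve, for `C¹` functions -/
theorem wsub_curve {Ω : Set (Fin n → ℂ)} (hΩ : IsOpen Ω) {u : (Fin n → ℂ) → ℝ} (hu : Psh Ω u)
    (h1 : ContDiffOn ℝ 1 u Ω) {g : ℂ → Fin n → ℂ} (hg : Differentiable ℂ g) {a : ℂ}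
    (ha : g a ∈ Ω) {v : Fin n → ℂ} {C : ℝ} (hC : 0 ≤ C)
    (hv : ∀ᶠ τ : ℂ in 𝓝 0, ‖g (τ + a) - g a - τ • v‖ ≤ C * ‖τ‖ ^ 2) :
    WSub (fun t => u (g t)) a := by
  intro η hη
  set p := g a with hp
  have hcd : ContDiffAt ℝ 1 u p := h1.contDiffAt (hΩ.mem_nhds ha)
  have hstrict := hcd.hasStrictFDerivAt (by norm_num)
  set L := fderiv ℝ u p with hL
  have hη' : 0 < η / (C + 1) := by positivity
  have hx : Tendsto (fun τ : ℂ => g (τ + a)) (𝓝 0) (𝓝 p) := by
    have : Continuous fun τ : ℂ => g (τ + a) := hg.continuous.comp (by fun_prop)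
    have h2 := this.tendsto 0
    simpa using h2
  have hy : Tendsto (fun τ : ℂ => p + τ • v) (𝓝 0) (𝓝 p) := by
    have : Continuous fun τ : ℂ => p + τ • v := by fun_prop
    have h2 := this.tendsto 0
    simpa using h2
  have hbd := (hx.prodMk_nhds hy).eventually
    ((Asymptotics.isLittleO_iff.mp hstrict.isLittleO) hη')
  have hΩx : ∀ᶠ τ : ℂ in 𝓝 0, g (τ + a) ∈ Ω := hx.eventually (hΩ.mem_nhds ha)
  have hΩy : ∀ᶠ τ : ℂ in 𝓝 0, p + τ • v ∈ Ω := hy.eventually (hΩ.mem_nhds ha)
  obtain ⟨δ, hδ, hball⟩ := Metric.nhds_basis_closedBall.mem_iff.mp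
    (hbd.and (hv.and (hΩx.and hΩy)))
  filter_upwards [hu.2 p ha v, Ioo_mem_nhdsGT hδ] with r hr hr2
  have hr0 : 0 < r := hr2.1
  have hsph : ∀ τ ∈ sphere (0:ℂ) r, τ ∈ closedBall (0:ℂ) δ := fun τ hτ => by
    rw [mem_closedBall]; rw [mem_sphere] at hτ; rw [hτ]; exact hr2.2.le
  have hc1 : ContinuousOn (fun τ : ℂ => u (g (τ + a))) (closedBall 0 δ) := by
    refine hu.1.comp (hg.continuous.comp (by fun_prop)).continuousOn fun τ hτ => ?_
    exact (hball hτ).2.2.1
  have hc2 : ContinuousOn (fun τ : ℂ => u (p + τ • v)) (closedBall 0 δ) := by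
    refine hu.1.comp (by fun_prop) fun τ hτ => ?_
    exact (hball hτ).2.2.2
  have hc3 : Continuous (fun τ : ℂ => L (g (τ + a) - p - τ • v)) := by
    have : Continuous fun τ : ℂ => g (τ + a) := hg.continuous.comp (by fun_prop)
    exact L.continuous.comp ((this.sub continuous_const).sub (continuous_id.smul continuous_const))
  have e0 : Real.circleAverage (fun t => u (g t)) a r =
      Real.circleAverage (fun τ : ℂ => u (g (τ + a))) 0 r :=
    (Real.circleAverage_map_add_const (f := fun t => u (g t))).symm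
  have e1 : Real.circleAverage (fun τ : ℂ => L (g (τ + a) - p - τ • v)) 0 r = 0 := by
    rw [avg_lin L hr0]
    · rw [zero_add, ← hp, sub_self, zero_smul, sub_zero, map_zero]
    · have : Differentiable ℂ fun τ : ℂ => g (τ + a) := hg.comp (by fun_prop)
      exact ((this.sub_const p).sub (differentiable_id.smul_const v)).differentiableOn
  have e2 : Real.circleAverage (fun τ : ℂ => u (p + τ • v) + L (g (τ + a) - p - τ • v) +
      (-(η * r ^ 2))) 0 r ≤ Real.circleAverage (fun τ : ℂ => u (g (τ + a))) 0 r := by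
    refine Real.circleAverage_mono ?_ (ci hr0.le (hc1.mono hsph)) ?_
    · exact ci hr0.le (((hc2.mono hsph).add hc3.continuousOn).add continuousOn_const)
    · intro τ hτ
      rw [abs_of_pos hr0] at hτ
      have h3 := hball (hsph τ hτ)
      obtain ⟨h4, h5, -, -⟩ := h3
      rw [mem_sphere, dist_zero_right] at hτ
      rw [hτ] at h5
      have h6 : g (τ + a) - (p + τ • v) = g (τ + a) - p - τ • v := by abel
      simp only [h6, Real.norm_eq_abs] at h4
      have h7 : η / (C + 1) * ‖g (τ + a) - p - τ • v‖ ≤ η * r ^ 2 := by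
        have h8 : η / (C + 1) * ‖g (τ + a) - p - τ • v‖ ≤ η / (C + 1) * (C * r ^ 2) :=
          mul_le_mul_of_nonneg_left h5 hη'.le
        have h9 : η / (C + 1) * (C * r ^ 2) ≤ η * r ^ 2 := by
          rw [div_mul_eq_mul_div, div_le_iff₀ (by positivity)]
          have : 0 ≤ η * r ^ 2 := by positivity
          nlinarith
        exact h8.trans h9
      have h10 := (abs_le.mp (h4.trans h7)).1
      linarith
  have i1 : CircleIntegrable (fun τ : ℂ => u (p + τ • v) + L (g (τ + a) - p - τ • v)) 0 r :=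
    ci hr0.le ((hc2.mono hsph).add hc3.continuousOn)
  have i2 : CircleIntegrable (fun τ : ℂ => u (p + τ • v)) 0 r := ci hr0.le (hc2.mono hsph)
  have i3 : CircleIntegrable (fun τ : ℂ => L (g (τ + a) - p - τ • v)) 0 r :=
    ci hr0.le hc3.continuousOn
  rw [Real.circleAverage_fun_add i1 (circleIntegrable_const _ _ _), Real.circleAverage_const,
    Real.circleAverage_fun_add i2 i3, e1] at e2
  rw [e0]
  linarith

end Pool.Agent.U501.CS
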