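import Pool.Agent.U501.CS.Curve

set_option autoImplicit false

open Complex Metric Set Filter Topology

namespace Pool.Agent.U501.CS

theorem v3_norm (x y z : ℂ) (C : ℝ) (hx : ‖x‖ ≤ C) (hy : ‖y‖ ≤ C) (hz : ‖z‖ ≤ C) :
    ‖(![x, y, z] : Fin 3 → ℂ)‖ ≤ C := by
  have h0 : 0 ≤ C := (norm_nonneg x).trans hx
  rw [pi_norm_le_iff_of_nonneg h0]
  intro i
  fin_cases i
  · simpa using hx
  · simpa using hy
  · simpa using hz

theorem v3_diff {f g h : ℂ → ℂ} (hf : Differentiable ℂ f) (hg : Differentiable ℂ g)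
    (hh : Differentiable ℂ h) : Differentiable ℂ (fun t => (![f t, g t, h t] : Fin 3 → ℂ)) := by
  rw [differentiable_pi]
  intro i
  fin_cases i
  · simpa using hf
  · simpa using hg
  · simpa using hh

/-- the leaf -/
def leaf (l t : ℂ) : Fin 3 → ℂ := ![l - t, t ^ 2, t ^ 3]

theorem leaf_diff (l : ℂ) : Differentiable ℂ (leaf l) :=
  v3_diff (by fun_prop) (by fun_prop) (by fun_prop)

theorem leaf_const {Ω : Set (Fin 3 → ℂ)} (hΩ : IsOpen Ω) {u : (Fin 3 → ℂ) → ℝ} (hu : Psh Ω u)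
    (h1 : ContDiffOn ℝ 1 u Ω) {M : ℝ} (hM : ∀ w ∈ Ω, u w ≤ M) {l : ℂ}
    (hl : ∀ t, leaf l t ∈ Ω) (t : ℂ) : u (leaf l t) = u (leaf l 0) := by
  have hc : Continuous fun t => u (leaf l t) := by
    rw [← continuousOn_univ]
    exact hu.1.comp (leaf_diff l).continuous.continuousOn fun t _ => hl t
  have hs : ∀ a, WSub (fun t => u (leaf l t)) a := by
    intro a
    refine wsub_curve hΩ hu h1 (leaf_diff l) (hl a) (v := ![-1, 2 * a, 3 * a ^ 2])
      (C := 3 * ‖a‖ + 1) (by positivity) ?_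
    filter_upwards [Metric.closedBall_mem_nhds (0:ℂ) one_pos] with τ hτ
    rw [mem_closedBall, dist_zero_right] at hτ
    have e : leaf l (τ + a) - leaf l a - τ • (![-1, 2 * a, 3 * a ^ 2] : Fin 3 → ℂ) =
        ![0, τ ^ 2, 3 * a * τ ^ 2 + τ ^ 3] := by
      funext i
      fin_cases i
      · simp [leaf]
      · simp [leaf]; ring
      · simp [leaf]; ring
    rw [e]
    have hn : 0 ≤ ‖τ‖ ^ 2 := by positivity
    have hna := norm_nonneg a
    refine v3_norm _ _ _ _ ?_ ?_ ?_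
    · rw [norm_zero]; positivity
    · rw [norm_pow]; nlinarith
    · calc ‖3 * a * τ ^ 2 + τ ^ 3‖ ≤ ‖3 * a * τ ^ 2‖ + ‖τ ^ 3‖ := norm_add_le _ _
        _ = 3 * ‖a‖ * ‖τ‖ ^ 2 + ‖τ‖ ^ 2 * ‖τ‖ := by
          rw [norm_mul, norm_mul, norm_pow, norm_pow]; norm_num; ring
        _ ≤ (3 * ‖a‖ + 1) * ‖τ‖ ^ 2 := by nlinarith
  exact le_antisymm (liouville hc hs (fun a => hM _ (hl a)) t 0)
    (liouville hc hs (fun a => hM _ (hl a)) 0 t)

theorem fderiv_zero {Ω : Set (Fin 3 → ℂ)} (hΩ : IsOpen Ω) {u : (Fin 3 → ℂ) → ℝ} (hu : Psh Ω u)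
    (h1 : ContDiffOn ℝ 1 u Ω) {M : ℝ} (hM : ∀ w ∈ Ω, u w ≤ M) {l : ℂ}
    (hl : ∀ t, leaf l t ∈ Ω) (w : ℂ) : fderiv ℝ u ![l, 0, 0] ![w, 0, 0] = 0 := by
  have hp : leaf l 0 = ![l, 0, 0] := by simp [leaf]
  have hd : HasFDerivAt u (fderiv ℝ u (leaf l 0)) (leaf l ((0:ℝ) * (-w))) := by
    have := (h1.contDiffAt (hΩ.mem_nhds (hl 0))).differentiableAt (by norm_num)
    simpa using this.hasFDerivAt
  have hg : HasDerivAt (fun s : ℝ => leaf l ((s:ℂ) * (-w))) ![w, 0, 0] 0 := by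
    rw [hasDerivAt_pi]
    have h0 : HasDerivAt (fun s : ℝ => (s:ℂ) * (-w)) (-w) 0 := by
      simpa using (Complex.ofRealCLM.hasDerivAt (x := (0:ℝ))).mul_const (-w)
    intro i
    fin_cases i
    · simpa [leaf] using h0.const_sub l
    · have h3 : HasDerivAt (fun s : ℝ => ((s:ℂ) * (-w)) ^ 2)
          (((2:ℕ):ℂ) * (((0:ℝ):ℂ) * (-w)) ^ (2 - 1) * (-w)) 0 := h0.fun_pow 2
      rw [Complex.ofReal_zero] at h3
      simpa [leaf] using h3
    · have h3 : HasDerivAt (fun s : ℝ => ((s:ℂ) * (-w)) ^ 3)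
          (((3:ℕ):ℂ) * (((0:ℝ):ℂ) * (-w)) ^ (3 - 1) * (-w)) 0 := h0.fun_pow 3
      rw [Complex.ofReal_zero] at h3
      simpa [leaf] using h3
  have hcomp := hd.comp_hasDerivAt (0:ℝ) hg
  have hconst : (u ∘ fun s : ℝ => leaf l ((s:ℂ) * (-w))) = fun _ => u (leaf l 0) := by
    funext s
    exact leaf_const hΩ hu h1 hM hl _
  rw [hconst] at hcomp
  have := hcomp.unique (hasDerivAt_const (0:ℝ) (u (leaf l 0)))
  rw [hp] at this
  exact this

theorem curve_const {Ω : Set (Fin 3 → ℂ)} (hΩ : IsOpen Ω) {u : (Fin 3 → ℂ) → ℝ} (hu : Psh Ω u)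
    (h1 : ContDiffOn ℝ 1 u Ω) {M : ℝ} (hM : ∀ w ∈ Ω, u w ≤ M) {γ γ' : ℝ → ℂ}
    (hγ : ∀ s, HasDerivAt γ (γ' s) s) (hl : ∀ s t, leaf (γ s) t ∈ Ω) (s t : ℝ) :
    u ![γ s, 0, 0] = u ![γ t, 0, 0] := by
  have hp : ∀ s, leaf (γ s) 0 = ![γ s, 0, 0] := fun s => by simp [leaf]
  have hmem : ∀ s, ![γ s, 0, 0] ∈ Ω := fun s => hp s ▸ hl s 0
  have hder : ∀ s, HasDerivAt (fun s => u ![γ s, 0, 0]) 0 s := by
    intro s
    have hd : HasFDerivAt u (fderiv ℝ u ![γ s, 0, 0]) ![γ s, 0, 0] :=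
      ((h1.contDiffAt (hΩ.mem_nhds (hmem s))).differentiableAt (by norm_num)).hasFDerivAt
    have hg : HasDerivAt (fun s : ℝ => (![γ s, 0, 0] : Fin 3 → ℂ)) ![γ' s, 0, 0] s := by
      rw [hasDerivAt_pi]
      intro i
      fin_cases i
      · simpa using hγ s
      · simpa using hasDerivAt_const s (0:ℂ)
      · simpa using hasDerivAt_const s (0:ℂ)
    have hcomp := hd.comp_hasDerivAt s hg
    rw [fderiv_zero hΩ hu h1 hM (hl s) (γ' s)] at hcomp
    exact hcomp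
  exact is_const_of_deriv_eq_zero (fun s => (hder s).differentiableAt) (fun s => (hder s).deriv) s t

theorem nonex {Ω : Set (Fin 3 → ℂ)} (hΩ : IsOpen Ω) (hD : ∀ t : ℂ, ‖t‖ ≤ 1 → ![t, 0, 0] ∈ Ω)
    (hL : ∀ l t : ℂ, ‖l‖ = 1 → leaf l t ∈ Ω)
    (hL' : ∀ (x : ℝ) (t : ℂ), 1 / 2 ≤ x → x ≤ 1 → leaf (x:ℂ) t ∈ Ω) (s : ℕ∞) (hs : 1 ≤ s) :
    (0 : Fin 3 → ℂ) ∈ core s Ω := by
  have h00 : (![0, 0, 0] : Fin 3 → ℂ) = 0 := by
    funext i
    fin_cases i <;> simp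
  have h0 : (0 : Fin 3 → ℂ) ∈ Ω := by
    have := hD 0 (by simp)
    rwa [h00] at this
  refine ⟨h0, ?_⟩
  rintro ⟨u, hus, hu, ⟨M, hM⟩, U, hUo, h0U, hUΩ, ε, hε, hUp⟩
  have h1 : ContDiffOn ℝ 1 u Ω := hus.of_le (by exact_mod_cast hs)
  set c : ℝ := u ![1, 0, 0] with hc
  have hcirc : ∀ a : ℂ, ‖a‖ = 1 → u ![a, 0, 0] = c := by
    intro a ha
    have hγ : ∀ s : ℝ, HasDerivAt (fun s : ℝ => Complex.exp (s * Complex.I))
        (Complex.exp (s * Complex.I) * Complex.I) s := by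
      intro s
      have h2 : HasDerivAt (fun s : ℝ => (s:ℂ) * Complex.I) Complex.I s := by
        simpa using (Complex.ofRealCLM.hasDerivAt (x := s)).mul_const Complex.I
      exact h2.cexp
    have h3 := curve_const hΩ hu h1 hM hγ (fun s t => hL _ t (Complex.norm_exp_ofReal_mul_I s))
      (Complex.arg a) 0
    have h4 : Complex.exp (Complex.arg a * Complex.I) = a := by
      have := Complex.norm_mul_exp_arg_mul_I a
      rwa [ha, Complex.ofReal_one, one_mul] at this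
    rw [h4, Complex.ofReal_zero, zero_mul, Complex.exp_zero] at h3
    exact h3
  have hhalf : u ![1 / 2, 0, 0] = c := by
    have hγ : ∀ s : ℝ, HasDerivAt (fun s : ℝ => ((3 / 4 + 1 / 4 * Real.cos s : ℝ) : ℂ))
        ((1 / 4 * (-Real.sin s) : ℝ) : ℂ) s := by
      intro s
      have := ((Real.hasDerivAt_cos s).const_mul (1 / 4)).const_add (3 / 4)
      exact this.ofReal_comp
    have h3 := curve_const hΩ hu h1 hM hγ (fun s t => hL' _ t (by
      have := Real.neg_one_le_cos s; linarith) (by have := Real.cos_le_one s; linarith)) Real.pi 0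
    have e1 : ((3 / 4 + 1 / 4 * Real.cos Real.pi : ℝ) : ℂ) = 1 / 2 := by
      rw [Real.cos_pi]; norm_num
    have e2 : ((3 / 4 + 1 / 4 * Real.cos 0 : ℝ) : ℂ) = 1 := by
      rw [Real.cos_zero]; norm_num
    simp only [e1, e2] at h3
    exact h3
  have hv : ∀ t : ℂ, (0 : Fin 3 → ℂ) + t • ![1, 0, 0] = ![t, 0, 0] := by
    intro t
    funext i
    fin_cases i <;> simp
  have hqc : ContinuousOn (fun t : ℂ => u ![t, 0, 0]) (closedBall 0 1) := by
    refine hu.1.comp (v3_diff (f := fun t => t) (g := fun _ => 0) (h := fun _ => 0) (by fun_prop)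
      (by fun_prop) (by fun_prop)).continuous.continuousOn fun t ht => hD t (by simpa using ht)
  have hqs : ∀ a : ℂ, ‖a‖ < 1 → WSub (fun t : ℂ => u ![t, 0, 0]) a := by
    intro a ha
    have := wsub_line hu (p := 0) (v := ![1, 0, 0]) (a := a) (by rw [hv]; exact hD a ha.le)
    simpa only [hv] using this
  obtain ⟨hle, hq0⟩ := disc_center hqc hqs hcirc (p := 1 / 2) (by norm_num) (by norm_num) hhalf
  obtain ⟨r, h5, h6⟩ := ((hUp.2 0 h0U ![1, 0, 0]).and (Ioo_mem_nhdsGT one_pos)).exists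
  have hr0 : 0 < r := h6.1
  have e1 : Real.circleAverage (fun τ : ℂ => (fun w : Fin 3 → ℂ => u w -
      ε * ∑ i, ‖w i‖ ^ 2) (0 + τ • ![1, 0, 0])) 0 r =
      Real.circleAverage (fun τ : ℂ => u ![τ, 0, 0] + (-(ε * r ^ 2))) 0 r := by
    refine Real.circleAverage_congr_sphere ?_
    intro τ hτ
    rw [abs_of_pos hr0, mem_sphere, dist_zero_right] at hτ
    simp only [hv]
    simp [Fin.sum_univ_three, hτ]
    ring
  rw [e1] at h5
  have hsph : sphere (0:ℂ) r ⊆ closedBall 0 1 := fun z hz => by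
    rw [mem_closedBall]; rw [mem_sphere] at hz; rw [hz]; exact h6.2.le
  have i1 : CircleIntegrable (fun τ : ℂ => u ![τ, 0, 0]) 0 r := ci hr0.le (hqc.mono hsph)
  rw [Real.circleAverage_fun_add i1 (circleIntegrable_const _ _ _), Real.circleAverage_const] at h5
  have h7 : Real.circleAverage (fun τ : ℂ => u ![τ, 0, 0]) 0 r ≤ c := by
    refine Real.circleAverage_mono_on_of_le_circle i1 ?_
    intro x hx
    rw [abs_of_pos hr0] at hx
    exact hle x (by simpa using hsph hx)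
  have h8 : u 0 = c := by rw [← hq0, h00]
  have h9 : 0 < ε * r ^ 2 := by positivity
  have h10 : (fun w : Fin 3 → ℂ => u w - ε * ∑ i, ‖w i‖ ^ 2) 0 = c := by
    simp [h8]
  rw [h10] at h5
  linarith

end Pool.Agent.U501.CS
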