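import Pool.Agent.U501.CS.Fun
import Pool.Agent.U501.CS.NonEx

set_option autoImplicit false

open Complex Metric Set Filter Topology

namespace Pool.Agent.U501.CS

/-- the set removed from `{AF < 2}` -/
def ZS : Set (Fin 3 → ℂ) :=
  {z | ‖z 0‖ ≤ 1 / 4 ∧ ‖z 1‖ ≤ 1 / 32 ∧ 1 / 10000 ≤ max ‖z 1‖ ‖z 2‖}

def WS : Set (Fin 3 → ℂ) := {z | AF z < 2} \ ZS

/-- the domain -/
def Om : Set (Fin 3 → ℂ) := connectedComponentIn WS 0

theorem cN (i : Fin 3) : Continuous fun z : Fin 3 → ℂ => ‖z i‖ := (continuous_apply i).norm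

theorem ZS_closed : IsClosed ZS := by
  unfold ZS
  refine (isClosed_le (cN 0) continuous_const).inter ?_
  refine (isClosed_le (cN 1) continuous_const).inter ?_
  exact isClosed_le continuous_const ((cN 1).max (cN 2))

theorem WS_open : IsOpen WS := (isOpen_lt AF_cont continuous_const).sdiff ZS_closed

theorem Om_open : IsOpen Om := WS_open.connectedComponentIn

theorem disc_W {t : ℂ} (ht : ‖t‖ ≤ 1) : ![t, 0, 0] ∈ WS := by
  refine ⟨?_, ?_⟩
  · show AF ![t, 0, 0] < 2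
    rw [AF_disc]
    linarith
  · rintro ⟨-, -, h⟩
    simp at h
    norm_num at h

theorem leaf_W {l : ℂ} (h1 : 1 / 2 ≤ ‖l‖) (h2 : ‖l‖ ≤ 1) (t : ℂ) : leaf l t ∈ WS := by
  refine ⟨?_, ?_⟩
  · show AF ![l - t, t ^ 2, t ^ 3] < 2
    rw [AF_leaf]
    linarith
  · rintro ⟨h3, h4, -⟩
    have h5 : ‖l - t‖ ≤ 1 / 4 := by simpa [leaf] using h3
    have h6 : ‖t‖ ^ 2 ≤ 1 / 32 := by simpa [leaf] using h4
    have h7 := norm_sub_norm_le l t
    have h8 : 1 / 4 ≤ ‖t‖ := by linarith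
    nlinarith

theorem vec0 : (![0, 0, 0] : Fin 3 → ℂ) = 0 := by
  funext i
  fin_cases i <;> simp

theorem zero_W : (0 : Fin 3 → ℂ) ∈ WS := by
  have := disc_W (t := 0) (by simp)
  rwa [vec0] at this

theorem disc_Om {t : ℂ} (ht : ‖t‖ ≤ 1) : ![t, 0, 0] ∈ Om := by
  have hpre : IsPreconnected ((fun t : ℂ => (![t, 0, 0] : Fin 3 → ℂ)) '' closedBall 0 1) := by
    refine (convex_closedBall (0:ℂ) 1).isPreconnected.image _ ?_
    exact (v3_diff (f := fun t => t) (g := fun _ => 0) (h := fun _ => 0) (by fun_prop)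
      (by fun_prop) (by fun_prop)).continuous.continuousOn
  refine hpre.subset_connectedComponentIn ⟨0, by simp, vec0⟩ ?_ ⟨t, by simpa using ht, rfl⟩
  rintro _ ⟨s, hs, rfl⟩
  exact disc_W (by simpa using hs)

theorem leaf_Om {l : ℂ} (h1 : 1 / 2 ≤ ‖l‖) (h2 : ‖l‖ ≤ 1) (t : ℂ) : leaf l t ∈ Om := by
  have hd : ![l, 0, 0] ∈ Om := disc_Om h2
  have hpre : IsPreconnected (range (leaf l)) := by
    rw [← image_univ]
    exact isPreconnected_univ.image _ (leaf_diff l).continuous.continuousOn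
  have h3 : range (leaf l) ⊆ connectedComponentIn WS ![l, 0, 0] := by
    refine hpre.subset_connectedComponentIn ⟨0, by simp [leaf]⟩ ?_
    rintro _ ⟨s, rfl⟩
    exact leaf_W h1 h2 s
  have h4 : connectedComponentIn WS 0 = connectedComponentIn WS ![l, 0, 0] :=
    connectedComponentIn_eq hd
  unfold Om
  rw [h4]
  exact h3 ⟨t, rfl⟩

theorem Om_conn : IsConnected Om :=
  ⟨⟨_, mem_connectedComponentIn zero_W⟩, isPreconnected_connectedComponentIn⟩

theorem Om_sub : Om ⊆ WS := connectedComponentIn_subset _ _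

noncomputable def BF (z : Fin 3 → ℂ) : ℝ := ∑ i, ‖z i‖ ^ 2 + 1 / 100

def PS : Set (Fin 3 → ℂ) := {z | ‖z 0‖ < 1 / 4 ∧ ‖z 1‖ < 1 / 10000 ∧ ‖z 2‖ < 1 / 10000}

theorem PS_open : IsOpen PS := by
  unfold PS
  refine (isOpen_lt (cN 0) continuous_const).inter ?_
  exact (isOpen_lt (cN 1) continuous_const).inter (isOpen_lt (cN 2) continuous_const)

open Classical in
noncomputable def phi (z : Fin 3 → ℂ) : ℝ := if z ∈ PS then max (AF z) (BF z) else AF z

theorem BF_cont : Continuous BF := by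
  unfold BF
  fun_prop

theorem BF_sub (p : Fin 3 → ℂ) : SubAt BF p := by
  have h : ∀ i : Fin 3, SubAt (fun z : Fin 3 → ℂ => ‖z i‖ ^ 2) p := by
    intro i
    have := subAt_rpow (U := univ) univ_mem (p := p) (f := fun z : Fin 3 → ℂ => z i)
      (by fun_prop) (q := 2) two_pos
    simpa only [Real.rpow_two] using this
  have hc : ∀ i : Fin 3, Continuous (fun z : Fin 3 → ℂ => ‖z i‖ ^ 2) := fun i => (cN i).pow 2
  have e : BF = fun z => ‖z 0‖ ^ 2 + ‖z 1‖ ^ 2 + ‖z 2‖ ^ 2 + 1 / 100 := by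
    funext z
    simp [BF, Fin.sum_univ_three]
  rw [e]
  refine SubAt.add (U := univ) univ_mem ?_ continuousOn_const ?_ (subAt_const _ _)
  · exact (((hc 0).add (hc 1)).add (hc 2)).continuousOn
  · refine SubAt.add (U := univ) univ_mem ((hc 0).add (hc 1)).continuousOn
      (hc 2).continuousOn ?_ (h 2)
    exact SubAt.add (U := univ) univ_mem (hc 0).continuousOn (hc 1).continuousOn (h 0) (h 1)

theorem BF_le {z : Fin 3 → ℂ} (hz : z ∈ PS) : BF z ≤ ‖z 0‖ ^ 2 + 2 / 100 := by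
  obtain ⟨h0, h1, h2⟩ := hz
  have n1 := norm_nonneg (z 1)
  have n2 := norm_nonneg (z 2)
  have e : BF z = ‖z 0‖ ^ 2 + ‖z 1‖ ^ 2 + ‖z 2‖ ^ 2 + 1 / 100 := by
    simp [BF, Fin.sum_univ_three]
  rw [e]
  nlinarith

theorem AF_BF {z : Fin 3 → ℂ} (hz : z ∈ PS) (h : 3 / 16 < ‖z 0‖) : BF z ≤ AF z := by
  have h1 := BF_le hz
  have h2 := AF_ge z
  obtain ⟨h3, h4, h5⟩ := hz
  have h6 : √‖z 1‖ ≤ 1 / 100 := by
    rw [Real.sqrt_le_left (by norm_num)]
    norm_num
    linarith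
  nlinarith

theorem phi_ev {z : Fin 3 → ℂ} (hz : z ∈ WS) (hP : z ∉ PS) : phi =ᶠ[𝓝 z] AF := by
  by_cases h0 : 3 / 16 < ‖z 0‖
  · have : ∀ᶠ w : Fin 3 → ℂ in 𝓝 z, 3 / 16 < ‖w 0‖ :=
      (cN 0).continuousAt.eventually (lt_mem_nhds h0)
    filter_upwards [this] with w hw
    unfold phi
    split_ifs with h
    · exact max_eq_left (AF_BF h hw)
    · rfl
  · have h1 : 1 / 32 < ‖z 1‖ := by
      by_contra h1
      apply hz.2
      refine ⟨by linarith, not_lt.mp h1, ?_⟩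
      by_contra h2
      rw [not_le, max_lt_iff] at h2
      exact hP ⟨by linarith, h2.1, h2.2⟩
    have : ∀ᶠ w : Fin 3 → ℂ in 𝓝 z, 1 / 32 < ‖w 1‖ :=
      (cN 1).continuousAt.eventually (lt_mem_nhds h1)
    filter_upwards [this] with w hw
    unfold phi
    rw [if_neg]
    rintro ⟨-, h2, -⟩
    linarith

theorem phi_evP {z : Fin 3 → ℂ} (hP : z ∈ PS) : phi =ᶠ[𝓝 z] fun w => max (AF w) (BF w) := by
  filter_upwards [PS_open.mem_nhds hP] with w hw
  unfold phi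
  rw [if_pos hw]

theorem phi_cont {z : Fin 3 → ℂ} (hz : z ∈ WS) : ContinuousAt phi z := by
  by_cases hP : z ∈ PS
  · exact (AF_cont.max BF_cont).continuousAt.congr (phi_evP hP).symm
  · exact AF_cont.continuousAt.congr (phi_ev hz hP).symm

theorem phi_sub {z : Fin 3 → ℂ} (hz : z ∈ WS) : SubAt phi z := by
  by_cases hP : z ∈ PS
  · exact (SubAt.max (U := univ) univ_mem AF_cont.continuousOn BF_cont.continuousOn (AF_sub z)
      (BF_sub z)).congr (phi_evP hP)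
  · exact (AF_sub z).congr (phi_ev hz hP)

theorem phi_psh : Psh Om phi :=
  ⟨fun _ hz => (phi_cont (Om_sub hz)).continuousWithinAt, fun _ hz => phi_sub (Om_sub hz)⟩

theorem phi_bdd {z : Fin 3 → ℂ} (hz : z ∈ Om) : phi z ≤ 2 := by
  have h1 : AF z < 2 := (Om_sub hz).1
  unfold phi
  split_ifs with h
  · refine max_le h1.le ?_
    have h2 := BF_le h
    have h3 : ‖z 0‖ < 1 / 4 := h.1
    have := norm_nonneg (z 0)
    nlinarith
  · exact h1.le

theorem phi_strict : StrictlyPshAt Om phi 0 := by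
  have hU : IsOpen (PS ∩ Om ∩ {z | AF z < BF z}) :=
    (PS_open.inter Om_open).inter (isOpen_lt AF_cont BF_cont)
  refine ⟨PS ∩ Om ∩ {z | AF z < BF z}, hU, ⟨⟨?_, mem_connectedComponentIn zero_W⟩, ?_⟩,
    fun z hz => hz.1.2, 1, one_pos, ?_⟩
  · refine ⟨?_, ?_, ?_⟩ <;> norm_num
  · have h1 := AF_disc 0
    rw [vec0] at h1
    show AF 0 < BF 0
    rw [h1]
    simp [BF]
  · have he : ∀ z ∈ PS ∩ Om ∩ {z | AF z < BF z}, phi z - 1 * ∑ i, ‖z i‖ ^ 2 = 1 / 100 := by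
      intro z hz
      have h2 : AF z < BF z := hz.2
      unfold phi
      rw [if_pos hz.1.1, max_eq_right h2.le, BF]
      ring
    refine ⟨?_, ?_⟩
    · exact (continuousOn_const (c := (1:ℝ) / 100)).congr he
    · intro a ha
      have h5 : SubAt (fun w => phi w - 1 * ∑ i, ‖w i‖ ^ 2) a := by
        refine SubAt.congr (subAt_const (1 / 100) a) ?_
        filter_upwards [hU.mem_nhds ha] with z hz
        exact he z hz
      exact h5

theorem zero_notMem : (0 : Fin 3 → ℂ) ∉ core 0 Om := by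
  rintro ⟨-, h⟩
  refine h ⟨phi, ?_, phi_psh, ⟨2, fun w hw => phi_bdd hw⟩, phi_strict⟩
  have := phi_psh.1
  rw [← contDiffOn_zero (𝕜 := ℝ)] at this
  exact_mod_cast this

theorem zero_mem (s : ℕ∞) (hs : 1 ≤ s) : (0 : Fin 3 → ℂ) ∈ core s Om := by
  refine nonex Om_open (fun t ht => disc_Om ht) (fun l t hl => leaf_Om (by rw [hl]; norm_num)
    hl.le t) (fun x t h1 h2 => ?_) s hs
  have hx : ‖(x:ℂ)‖ = x := by
    rw [Complex.norm_real, Real.norm_eq_abs, abs_of_nonneg (by linarith)]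
  exact leaf_Om (by rw [hx]; exact h1) (by rw [hx]; exact h2) t

theorem main : ∃ Ω : Set (Fin 3 → ℂ), IsOpen Ω ∧ IsConnected Ω ∧
    ∀ s : ℕ∞, 1 ≤ s → core 0 Ω ⊂ core s Ω := by
  refine ⟨Om, Om_open, Om_conn, fun s hs => ⟨core_mono Om bot_le, fun h => ?_⟩⟩
  exact zero_notMem (h (zero_mem s hs))

end Pool.Agent.U501.CS
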