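import Pool.Agent.U501.CS.Build

set_option autoImplicit false

open Complex Metric Set Filter Topology

namespace Pool.Agent.U501.CS

theorem rp_le {x y : ℝ} {n : ℕ} (hn : n ≠ 0) (hx : 0 ≤ x) (hy : 0 ≤ y) (h : x ≤ y ^ n) :
    x ^ ((n:ℝ)⁻¹) ≤ y := by
  calc x ^ ((n:ℝ)⁻¹) ≤ (y ^ n) ^ ((n:ℝ)⁻¹) := Real.rpow_le_rpow hx h (by positivity)
    _ = y := Real.pow_rpow_inv_natCast hy hn

theorem le_rp {x y : ℝ} {n : ℕ} (hn : n ≠ 0) (hy : 0 ≤ y) (h : y ^ n ≤ x) :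
    y ≤ x ^ ((n:ℝ)⁻¹) := by
  calc y = (y ^ n) ^ ((n:ℝ)⁻¹) := (Real.pow_rpow_inv_natCast hy hn).symm
    _ ≤ x ^ ((n:ℝ)⁻¹) := Real.rpow_le_rpow (by positivity) h (by positivity)

noncomputable def A1 (z : Fin 3 → ℂ) : ℝ :=
  ‖z 0 + z 2 / z 1‖ + 300 * ‖z 1 ^ 3 * (z 2 ^ 2 - z 1 ^ 3)‖ ^ (((12:ℕ):ℝ)⁻¹)

noncomputable def A2 (z : Fin 3 → ℂ) : ℝ := ‖z 0‖ + 200 * ‖z 2‖ ^ (((3:ℕ):ℝ)⁻¹)

open Classical in
noncomputable def AF (z : Fin 3 → ℂ) : ℝ :=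
  if 4096 * ‖z 1‖ ^ 3 ≤ ‖z 2‖ ^ 2 then A2 z
  else if ‖z 2‖ ^ 2 ≤ 4 * ‖z 1‖ ^ 3 then A1 z else max (A1 z) (A2 z)

theorem A2_ge (z : Fin 3 → ℂ) : ‖z 0‖ ≤ A2 z := by
  have : 0 ≤ ‖z 2‖ ^ (((3:ℕ):ℝ)⁻¹) := by positivity
  unfold A2
  linarith

/-- polynomial data -/
theorem data (z : Fin 3 → ℂ) (h : z 1 ≠ 0) (k : ℝ) (hk : 0 ≤ k) (hb : ‖z 2‖ ^ 2 ≤ k ^ 2 * ‖z 1‖ ^ 3) :
    0 < √‖z 1‖ ∧ ‖z 1‖ = √‖z 1‖ ^ 2 ∧ ‖z 2‖ ≤ k * √‖z 1‖ ^ 3 ∧ ‖z 2 / z 1‖ ≤ k * √‖z 1‖ := by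
  have h0 : 0 < ‖z 1‖ := norm_pos_iff.mpr h
  have h1 : 0 < √‖z 1‖ := Real.sqrt_pos.mpr h0
  have h2 : ‖z 1‖ = √‖z 1‖ ^ 2 := (Real.sq_sqrt h0.le).symm
  have h3 : ‖z 2‖ ≤ k * √‖z 1‖ ^ 3 := by
    rw [← pow_le_pow_iff_left₀ (norm_nonneg _) (by positivity) two_ne_zero]
    calc ‖z 2‖ ^ 2 ≤ k ^ 2 * ‖z 1‖ ^ 3 := hb
      _ = k ^ 2 * (√‖z 1‖ ^ 2) ^ 3 := by rw [← h2]
      _ = (k * √‖z 1‖ ^ 3) ^ 2 := by ring
  refine ⟨h1, h2, h3, ?_⟩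
  rw [norm_div, div_le_iff₀ h0]
  calc ‖z 2‖ ≤ k * √‖z 1‖ ^ 3 := h3
    _ = k * √‖z 1‖ * √‖z 1‖ ^ 2 := by ring
    _ = k * √‖z 1‖ * ‖z 1‖ := by rw [← h2]

theorem A1_ge (z : Fin 3 → ℂ) (h : z 1 ≠ 0) (k : ℝ) (hk : 0 ≤ k)
    (hb : ‖z 2‖ ^ 2 ≤ k ^ 2 * ‖z 1‖ ^ 3) : ‖z 0‖ - k * √‖z 1‖ ≤ A1 z := by
  obtain ⟨h1, h2, h3, h4⟩ := data z h k hk hb
  have h5 : 0 ≤ ‖z 1 ^ 3 * (z 2 ^ 2 - z 1 ^ 3)‖ ^ (((12:ℕ):ℝ)⁻¹) := by positivity
  have h6 : ‖z 0‖ - ‖z 2 / z 1‖ ≤ ‖z 0 + z 2 / z 1‖ := by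
    have := norm_sub_norm_le (z 0) (-(z 2 / z 1))
    rwa [norm_neg, sub_neg_eq_add] at this
  unfold A1
  linarith

theorem A1_le (z : Fin 3 → ℂ) (h : z 1 ≠ 0) (hb : ‖z 2‖ ^ 2 ≤ 4096 * ‖z 1‖ ^ 3) :
    A1 z ≤ ‖z 0‖ + 667 * √‖z 1‖ := by
  obtain ⟨h1, h2, h3, h4⟩ := data z h 64 (by norm_num) (by norm_num; exact hb)
  have h5 : ‖z 1 ^ 3 * (z 2 ^ 2 - z 1 ^ 3)‖ ^ (((12:ℕ):ℝ)⁻¹) ≤ 201 / 100 * √‖z 1‖ := by
    refine rp_le (by norm_num) (norm_nonneg _) (by positivity) ?_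
    have h6 : ‖z 2 ^ 2 - z 1 ^ 3‖ ≤ 4097 * ‖z 1‖ ^ 3 := by
      calc ‖z 2 ^ 2 - z 1 ^ 3‖ ≤ ‖z 2 ^ 2‖ + ‖z 1 ^ 3‖ := norm_sub_le _ _
        _ = ‖z 2‖ ^ 2 + ‖z 1‖ ^ 3 := by rw [norm_pow, norm_pow]
        _ ≤ 4097 * ‖z 1‖ ^ 3 := by linarith
    calc ‖z 1 ^ 3 * (z 2 ^ 2 - z 1 ^ 3)‖ = ‖z 1‖ ^ 3 * ‖z 2 ^ 2 - z 1 ^ 3‖ := by
          rw [norm_mul, norm_pow]
      _ ≤ ‖z 1‖ ^ 3 * (4097 * ‖z 1‖ ^ 3) := mul_le_mul_of_nonneg_left h6 (by positivity)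
      _ = 4097 * (√‖z 1‖ ^ 2) ^ 6 := by rw [← h2]; ring
      _ = 4097 * √‖z 1‖ ^ 12 := by ring
      _ ≤ (201 / 100) ^ 12 * √‖z 1‖ ^ 12 := by
          refine mul_le_mul_of_nonneg_right ?_ (by positivity)
          norm_num
      _ = (201 / 100 * √‖z 1‖) ^ 12 := by rw [mul_pow]
  have h6 := norm_add_le (z 0) (z 2 / z 1)
  unfold A1
  linarith

theorem cmp1 (z : Fin 3 → ℂ) (h : z 1 ≠ 0) (hb : ‖z 2‖ ^ 2 = 4 * ‖z 1‖ ^ 3) : A2 z < A1 z := by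
  obtain ⟨h1, h2, h3, h4⟩ := data z h 2 (by norm_num) (by norm_num; exact hb.le)
  have h5 : ‖z 2‖ ^ (((3:ℕ):ℝ)⁻¹) ≤ 4 / 3 * √‖z 1‖ := by
    refine rp_le (by norm_num) (norm_nonneg _) (by positivity) (h3.trans ?_)
    rw [mul_pow]
    refine mul_le_mul_of_nonneg_right ?_ (by positivity)
    norm_num
  have h6 : √‖z 1‖ ≤ ‖z 1 ^ 3 * (z 2 ^ 2 - z 1 ^ 3)‖ ^ (((12:ℕ):ℝ)⁻¹) := by
    refine le_rp (by norm_num) h1.le ?_
    have h7 : ‖z 1‖ ^ 3 ≤ ‖z 2 ^ 2 - z 1 ^ 3‖ := by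
      have := norm_sub_norm_le (z 2 ^ 2) (z 1 ^ 3)
      rw [norm_pow, norm_pow] at this
      have : 0 ≤ ‖z 1‖ ^ 3 := by positivity
      linarith
    calc √‖z 1‖ ^ 12 = (√‖z 1‖ ^ 2) ^ 3 * (√‖z 1‖ ^ 2) ^ 3 := by ring
      _ = ‖z 1‖ ^ 3 * ‖z 1‖ ^ 3 := by rw [← h2]
      _ ≤ ‖z 1‖ ^ 3 * ‖z 2 ^ 2 - z 1 ^ 3‖ := mul_le_mul_of_nonneg_left h7 (by positivity)
      _ = ‖z 1 ^ 3 * (z 2 ^ 2 - z 1 ^ 3)‖ := by rw [norm_mul, norm_pow]
  have h7 : ‖z 0‖ - ‖z 2 / z 1‖ ≤ ‖z 0 + z 2 / z 1‖ := by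
    have := norm_sub_norm_le (z 0) (-(z 2 / z 1))
    rwa [norm_neg, sub_neg_eq_add] at this
  unfold A1 A2
  linarith

theorem cmp2 (z : Fin 3 → ℂ) (h : z 1 ≠ 0) (hb : ‖z 2‖ ^ 2 = 4096 * ‖z 1‖ ^ 3) : A1 z < A2 z := by
  have h0 := A1_le z h hb.le
  obtain ⟨h1, h2, h3, h4⟩ := data z h 64 (by norm_num) (by norm_num; exact hb.le)
  have h5 : 4 * √‖z 1‖ ≤ ‖z 2‖ ^ (((3:ℕ):ℝ)⁻¹) := by
    refine le_rp (by norm_num) (by positivity) ?_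
    rw [← pow_le_pow_iff_left₀ (by positivity) (norm_nonneg _) two_ne_zero, hb]
    calc ((4 * √‖z 1‖) ^ 3) ^ 2 = 4096 * (√‖z 1‖ ^ 2) ^ 3 := by ring
      _ = 4096 * ‖z 1‖ ^ 3 := by rw [← h2]
      _ ≤ 4096 * ‖z 1‖ ^ 3 := le_rfl
  unfold A2
  linarith

theorem AF_ge (z : Fin 3 → ℂ) : ‖z 0‖ - 2 * √‖z 1‖ ≤ AF z := by
  have h0 : 0 ≤ √‖z 1‖ := Real.sqrt_nonneg _
  have h1 := A2_ge z
  unfold AF
  split_ifs with h2 h3
  · linarith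
  · have h4 : z 1 ≠ 0 := by
      intro h
      rw [h] at h2
      apply h2
      norm_num
    exact A1_ge z h4 2 (by norm_num) (by norm_num; exact h3)
  · have := le_max_right (A1 z) (A2 z)
    linarith

theorem AF_ge' (z : Fin 3 → ℂ) (h : z 2 = 0 ∨ 4096 * ‖z 1‖ ^ 3 ≤ ‖z 2‖ ^ 2) : ‖z 0‖ ≤ AF z := by
  have h1 := A2_ge z
  unfold AF
  split_ifs with h2 h3
  · linarith
  · have h4 : z 2 = 0 := h.resolve_right h2
    have h5 : 0 ≤ ‖z 1 ^ 3 * (z 2 ^ 2 - z 1 ^ 3)‖ ^ (((12:ℕ):ℝ)⁻¹) := by positivity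
    unfold A1
    rw [h4] at h5 ⊢
    rw [zero_div, add_zero]
    linarith
  · have := le_max_right (A1 z) (A2 z)
    linarith

theorem AF_dist (z : Fin 3 → ℂ) :
    |AF z - ‖z 0‖| ≤ 667 * √‖z 1‖ + 200 * ‖z 2‖ ^ (((3:ℕ):ℝ)⁻¹) := by
  have h0 : 0 ≤ √‖z 1‖ := Real.sqrt_nonneg _
  have h1 := A2_ge z
  have h2 : 0 ≤ ‖z 2‖ ^ (((3:ℕ):ℝ)⁻¹) := by positivity
  have h3 : A2 z = ‖z 0‖ + 200 * ‖z 2‖ ^ (((3:ℕ):ℝ)⁻¹) := rfl
  have hA1 : ¬ 4096 * ‖z 1‖ ^ 3 ≤ ‖z 2‖ ^ 2 → A1 z ≤ ‖z 0‖ + 667 * √‖z 1‖ := by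
    intro h
    refine A1_le z ?_ (not_le.mp h).le
    intro h'
    rw [h'] at h
    apply h
    norm_num
  have h4 := AF_ge z
  rw [abs_le]
  refine ⟨by linarith, ?_⟩
  unfold AF
  split_ifs with h5 h6
  · linarith
  · have := hA1 h5
    linarith
  · have := hA1 h5
    rw [sub_le_iff_le_add]
    refine max_le (by linarith) (by linarith)

theorem A2_cont : Continuous A2 := by
  unfold A2
  refine (by fun_prop : Continuous fun z : Fin 3 → ℂ => ‖z 0‖).add (continuous_const.mul ?_)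
  exact Continuous.rpow_const (by fun_prop) fun z => Or.inr (by positivity)

theorem U1_open : IsOpen {z : Fin 3 → ℂ | z 1 ≠ 0} :=
  isOpen_ne_fun (continuous_apply 1) continuous_const

theorem A1_cont : ContinuousOn A1 {z : Fin 3 → ℂ | z 1 ≠ 0} := by
  unfold A1
  refine ContinuousOn.add ?_ (continuousOn_const.mul ?_)
  · refine ContinuousOn.norm (ContinuousOn.add (by fun_prop) ?_)
    exact ContinuousOn.div (by fun_prop) (by fun_prop) fun z hz => hz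
  · exact ContinuousOn.rpow_const (by fun_prop) fun z _ => Or.inr (by positivity)

theorem cA (c : ℝ) : Continuous fun z : Fin 3 → ℂ => c * ‖z 1‖ ^ 3 :=
  continuous_const.mul ((continuous_apply 1).norm.pow 3)

theorem cB : Continuous fun z : Fin 3 → ℂ => ‖z 2‖ ^ 2 := (continuous_apply 2).norm.pow 2

theorem ev2 {p : Fin 3 → ℂ} (h : 4096 * ‖p 1‖ ^ 3 ≤ ‖p 2‖ ^ 2) (h2 : p 2 ≠ 0) :
    AF =ᶠ[𝓝 p] A2 := by
  rcases lt_or_eq_of_le h with h | h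
  · have : ∀ᶠ z : Fin 3 → ℂ in 𝓝 p, 4096 * ‖z 1‖ ^ 3 < ‖z 2‖ ^ 2 :=
      ContinuousAt.eventually_lt (cA _).continuousAt cB.continuousAt h
    filter_upwards [this] with z hz
    unfold AF
    rw [if_pos hz.le]
  · have h1 : p 1 ≠ 0 := by
      intro h1
      rw [h1, norm_zero] at h
      have : 0 < ‖p 2‖ ^ 2 := by positivity
      rw [← h] at this
      norm_num at this
    have hlt := cmp2 p h1 h.symm
    have e1 : ∀ᶠ z in 𝓝 p, A1 z < A2 z :=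
      ContinuousAt.eventually_lt ((A1_cont).continuousAt (U1_open.mem_nhds h1))
        A2_cont.continuousAt hlt
    have hp0 : 0 < ‖p 1‖ ^ 3 := by positivity
    have e2 : ∀ᶠ z : Fin 3 → ℂ in 𝓝 p, 4 * ‖z 1‖ ^ 3 < ‖z 2‖ ^ 2 :=
      ContinuousAt.eventually_lt (cA _).continuousAt cB.continuousAt (by linarith)
    filter_upwards [e1, e2] with z h3 h4
    unfold AF
    split_ifs with h5 h6
    · rfl
    · linarith
    · exact max_eq_right h3.le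

theorem ev1 {p : Fin 3 → ℂ} (h : ‖p 2‖ ^ 2 ≤ 4 * ‖p 1‖ ^ 3) (h1 : p 1 ≠ 0) :
    AF =ᶠ[𝓝 p] A1 := by
  have hp0 : 0 < ‖p 1‖ ^ 3 := by positivity
  have e2 : ∀ᶠ z : Fin 3 → ℂ in 𝓝 p, ‖z 2‖ ^ 2 < 4096 * ‖z 1‖ ^ 3 :=
    ContinuousAt.eventually_lt cB.continuousAt (cA _).continuousAt (by linarith)
  rcases lt_or_eq_of_le h with h | h
  · have : ∀ᶠ z : Fin 3 → ℂ in 𝓝 p, ‖z 2‖ ^ 2 < 4 * ‖z 1‖ ^ 3 :=
      ContinuousAt.eventually_lt cB.continuousAt (cA _).continuousAt h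
    filter_upwards [this, e2] with z hz h3
    unfold AF
    rw [if_neg (not_le.mpr h3), if_pos hz.le]
  · have hlt := cmp1 p h1 h
    have e1 : ∀ᶠ z in 𝓝 p, A2 z < A1 z :=
      ContinuousAt.eventually_lt A2_cont.continuousAt
        ((A1_cont).continuousAt (U1_open.mem_nhds h1)) hlt
    filter_upwards [e1, e2] with z h3 h4
    unfold AF
    rw [if_neg (not_le.mpr h4)]
    split_ifs with h6
    · rfl
    · exact max_eq_left h3.le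

theorem ev12 {p : Fin 3 → ℂ} (h : 4 * ‖p 1‖ ^ 3 < ‖p 2‖ ^ 2) (h' : ‖p 2‖ ^ 2 < 4096 * ‖p 1‖ ^ 3) :
    AF =ᶠ[𝓝 p] fun z => max (A1 z) (A2 z) := by
  have e2 : ∀ᶠ z : Fin 3 → ℂ in 𝓝 p, ‖z 2‖ ^ 2 < 4096 * ‖z 1‖ ^ 3 :=
    ContinuousAt.eventually_lt cB.continuousAt (cA _).continuousAt h'
  have e1 : ∀ᶠ z : Fin 3 → ℂ in 𝓝 p, 4 * ‖z 1‖ ^ 3 < ‖z 2‖ ^ 2 :=
    ContinuousAt.eventually_lt (cA _).continuousAt cB.continuousAt h
  filter_upwards [e1, e2] with z h3 h4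
  unfold AF
  rw [if_neg (not_le.mpr h4), if_neg (not_le.mpr h3)]

theorem AF_cont : Continuous AF := by
  rw [continuous_iff_continuousAt]
  intro p
  by_cases h1 : p 1 = 0
  · by_cases h2 : p 2 = 0
    · have hp : AF p = ‖p 0‖ := by
        unfold AF A2
        rw [if_pos (by rw [h1, h2]; norm_num), h2]
        simp
      unfold ContinuousAt
      rw [hp]
      have e1 : Tendsto (fun z : Fin 3 → ℂ => ‖z 0‖) (𝓝 p) (𝓝 ‖p 0‖) := by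
        have : Continuous (fun z : Fin 3 → ℂ => ‖z 0‖) := by fun_prop
        exact this.tendsto p
      have e2 : Tendsto (fun z : Fin 3 → ℂ => 667 * √‖z 1‖ + 200 * ‖z 2‖ ^ (((3:ℕ):ℝ)⁻¹)) (𝓝 p)
          (𝓝 0) := by
        have : Continuous (fun z : Fin 3 → ℂ => 667 * √‖z 1‖ + 200 * ‖z 2‖ ^ (((3:ℕ):ℝ)⁻¹)) := by
          refine (by fun_prop : Continuous fun z : Fin 3 → ℂ => 667 * √‖z 1‖).add
            (continuous_const.mul ?_)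
          exact Continuous.rpow_const (by fun_prop) fun z => Or.inr (by positivity)
        have h3 := this.tendsto p
        rw [h1, h2] at h3
        simpa using h3
      have e3 : Tendsto (fun z => AF z - ‖z 0‖) (𝓝 p) (𝓝 0) := by
        rw [tendsto_zero_iff_abs_tendsto_zero]
        exact squeeze_zero (fun z => abs_nonneg _) AF_dist e2
      have e4 := e3.add e1
      rw [zero_add] at e4
      refine e4.congr fun z => ?_
      ring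
    · have : 4096 * ‖p 1‖ ^ 3 ≤ ‖p 2‖ ^ 2 := by
        rw [h1, norm_zero]
        have : 0 ≤ ‖p 2‖ ^ 2 := by positivity
        norm_num
      exact A2_cont.continuousAt.congr (ev2 this h2).symm
  · have hA1 := (A1_cont).continuousAt (U1_open.mem_nhds h1)
    have hp0 : 0 < ‖p 1‖ ^ 3 := by positivity
    by_cases h2 : 4096 * ‖p 1‖ ^ 3 ≤ ‖p 2‖ ^ 2
    · refine A2_cont.continuousAt.congr (ev2 h2 ?_).symm
      intro h3
      rw [h3] at h2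
      norm_num at h2
      linarith
    · by_cases h3 : ‖p 2‖ ^ 2 ≤ 4 * ‖p 1‖ ^ 3
      · exact hA1.congr (ev1 h3 h1).symm
      · exact (hA1.sup A2_cont.continuousAt).congr (ev12 (not_le.mp h3) (not_le.mp h2)).symm

theorem A2_sub (p : Fin 3 → ℂ) : SubAt A2 p := by
  have hc : Continuous fun z : Fin 3 → ℂ => ‖z 2‖ ^ (((3:ℕ):ℝ)⁻¹) :=
    Continuous.rpow_const (by fun_prop) fun z => Or.inr (by positivity)
  refine SubAt.add (U := univ) univ_mem (by fun_prop) ?_ ?_ ?_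
  · exact (continuous_const.mul hc).continuousOn
  · exact subAt_norm (U := univ) univ_mem (f := fun z => z 0) (by fun_prop)
  · exact (subAt_rpow (U := univ) univ_mem (f := fun z => z 2) (by fun_prop)
      (by positivity)).const_mul (by norm_num)

theorem A1_sub {p : Fin 3 → ℂ} (h : p 1 ≠ 0) : SubAt A1 p := by
  have hU := U1_open.mem_nhds h
  have hd : DifferentiableOn ℂ (fun z : Fin 3 → ℂ => z 0 + z 2 / z 1) {z : Fin 3 → ℂ | z 1 ≠ 0} := by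
    intro z hz
    have h3 : DifferentiableAt ℂ (fun z : Fin 3 → ℂ => z 2 / z 1) z := by
      simp only [div_eq_mul_inv]
      have h4 : DifferentiableAt ℂ (fun z : Fin 3 → ℂ => z 2) z := by fun_prop
      have h5 : DifferentiableAt ℂ (fun z : Fin 3 → ℂ => z 1) z := by fun_prop
      exact h4.mul (h5.fun_inv hz)
    exact (DifferentiableAt.fun_add (by fun_prop) h3).differentiableWithinAt
  refine SubAt.add hU hd.continuousOn.norm ?_ ?_ ?_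
  · refine continuousOn_const.mul ?_
    exact ContinuousOn.rpow_const (by fun_prop) fun z _ => Or.inr (by positivity)
  · exact subAt_norm hU hd
  · exact (subAt_rpow (U := univ) univ_mem (f := fun z => z 1 ^ 3 * (z 2 ^ 2 - z 1 ^ 3))
      (by fun_prop) (by positivity)).const_mul (by norm_num)

theorem SubAt.congr {n : ℕ} {u F : (Fin n → ℂ) → ℝ} {p : Fin n → ℂ} (h : SubAt F p)
    (he : u =ᶠ[𝓝 p] F) : SubAt u p := by
  intro b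
  obtain ⟨δ, hδ, hm⟩ := line_mem he b
  filter_upwards [h b, Ioo_mem_nhdsGT hδ] with r h1 h2
  rw [he.eq_of_nhds]
  refine h1.trans (le_of_eq ?_)
  refine Real.circleAverage_congr_sphere ?_
  intro τ hτ
  rw [abs_of_pos h2.1, mem_sphere, dist_zero_right] at hτ
  exact (hm τ (by rw [hτ]; exact h2.2.le)).symm

theorem AF_sub (p : Fin 3 → ℂ) : SubAt AF p := by
  by_cases h1 : p 1 = 0
  · by_cases h2 : p 2 = 0
    · have hp : AF p = ‖p 0‖ := by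
        unfold AF A2
        rw [if_pos (by rw [h1, h2]; norm_num), h2]
        simp
      intro b
      have hsm : ∀ᶠ r in 𝓝[>] (0:ℝ), ∀ τ : ℂ, ‖τ‖ = r → ‖(p + τ • b) 0‖ ≤ AF (p + τ • b) := by
        have e1 : ∀ τ : ℂ, (p + τ • b) 1 = τ * b 1 := fun τ => by simp [h1]
        have e2 : ∀ τ : ℂ, (p + τ • b) 2 = τ * b 2 := fun τ => by simp [h2]
        by_cases hb : b 2 = 0
        · refine Eventually.of_forall fun r τ _ => AF_ge' _ (Or.inl ?_)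
          rw [e2, hb, mul_zero]
        · have h3 : ∀ᶠ r in 𝓝[>] (0:ℝ), 4096 * r * ‖b 1‖ ^ 3 < ‖b 2‖ ^ 2 := by
            have : ContinuousAt (fun r : ℝ => 4096 * r * ‖b 1‖ ^ 3) 0 := by fun_prop
            refine (this.eventually_lt continuousAt_const ?_).filter_mono nhdsWithin_le_nhds
            simp only [mul_zero, zero_mul]
            positivity
          filter_upwards [h3, self_mem_nhdsWithin] with r h4 h5 τ hτ
          have h5' : (0:ℝ) < r := h5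
          refine AF_ge' _ (Or.inr ?_)
          rw [e1, e2, norm_mul, norm_mul, hτ]
          calc 4096 * (r * ‖b 1‖) ^ 3 = r ^ 2 * (4096 * r * ‖b 1‖ ^ 3) := by ring
            _ ≤ r ^ 2 * ‖b 2‖ ^ 2 := mul_le_mul_of_nonneg_left h4.le (by positivity)
            _ = (r * ‖b 2‖) ^ 2 := by ring
      have h6 : SubAt (fun z : Fin 3 → ℂ => ‖z 0‖) p :=
        subAt_norm (U := univ) univ_mem (f := fun z => z 0) (by fun_prop)
      filter_upwards [hsm, h6 b, self_mem_nhdsWithin] with r h7 h8 h9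
      have h9' : (0:ℝ) < r := h9
      rw [hp]
      refine h8.trans (Real.circleAverage_mono (ci h9'.le (by fun_prop))
        (ci h9'.le (AF_cont.comp (by fun_prop)).continuousOn) ?_)
      intro τ hτ
      rw [abs_of_pos h9', mem_sphere, dist_zero_right] at hτ
      exact h7 τ hτ
    · have : 4096 * ‖p 1‖ ^ 3 ≤ ‖p 2‖ ^ 2 := by
        rw [h1, norm_zero]
        have : 0 ≤ ‖p 2‖ ^ 2 := by positivity
        norm_num
      exact (A2_sub p).congr (ev2 this h2)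
  · have hp0 : 0 < ‖p 1‖ ^ 3 := by positivity
    by_cases h2 : 4096 * ‖p 1‖ ^ 3 ≤ ‖p 2‖ ^ 2
    · refine (A2_sub p).congr (ev2 h2 ?_)
      intro h3
      rw [h3] at h2
      norm_num at h2
      linarith
    · by_cases h3 : ‖p 2‖ ^ 2 ≤ 4 * ‖p 1‖ ^ 3
      · exact (A1_sub h1).congr (ev1 h3 h1)
      · exact (SubAt.max (U1_open.mem_nhds h1) A1_cont A2_cont.continuousOn (A1_sub h1)
          (A2_sub p)).congr (ev12 (not_le.mp h3) (not_le.mp h2))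

/-- the value on the leaves -/
theorem AF_leaf (l t : ℂ) : AF ![l - t, t ^ 2, t ^ 3] = ‖l‖ := by
  by_cases ht : t = 0
  · subst ht
    unfold AF A2
    simp
  · have h0 : 0 < ‖t‖ := norm_pos_iff.mpr ht
    have h1 : 0 < ‖t‖ ^ 6 := by positivity
    unfold AF
    rw [if_neg, if_pos]
    · unfold A1
      simp only [Matrix.cons_val_zero, Matrix.cons_val_one, Matrix.cons_val]
      have e1 : l - t + t ^ 3 / t ^ 2 = l := by field_simp; ring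
      have e2 : (t ^ 2) ^ 3 * ((t ^ 3) ^ 2 - (t ^ 2) ^ 3) = 0 := by ring
      rw [e1, e2]
      simp
    · simp only [Matrix.cons_val_one, Matrix.cons_val, norm_pow]
      nlinarith
    · simp only [Matrix.cons_val_one, Matrix.cons_val, norm_pow]
      nlinarith

theorem AF_disc (t : ℂ) : AF ![t, 0, 0] = ‖t‖ := by
  unfold AF A2
  simp

end Pool.Agent.U501.CS
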