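import Mathlib

set_option autoImplicit false

open Complex Metric Set Filter Topology

namespace Pool.Agent.U501.CS

/-- weak form of the local submean inequality at a point -/
def WSub (f : ℂ → ℝ) (a : ℂ) : Prop :=
  ∀ η : ℝ, 0 < η → ∀ᶠ r in 𝓝[>] (0:ℝ), f a ≤ Real.circleAverage f a r + η * r ^ 2

theorem ci {f : ℂ → ℝ} {c : ℂ} {r : ℝ} (hr : 0 ≤ r) (h : ContinuousOn f (sphere c r)) :
    CircleIntegrable f c r := h.circleIntegrable hr

/-- mean value property for real linear images of holomorphic maps -/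
theorem avg_lin {E : Type*} [NormedAddCommGroup E] [NormedSpace ℂ E] [CompleteSpace E]
    (L : E →L[ℝ] ℝ) {f : ℂ → E} {c : ℂ} {r : ℝ} (hr : 0 < r)
    (hf : DifferentiableOn ℂ f (closedBall c r)) :
    Real.circleAverage (fun z => L (f z)) c r = L (f c) := by
  have h1 : CircleIntegrable f c r :=
    (hf.continuousOn.mono sphere_subset_closedBall).circleIntegrable hr.le
  have h2 := L.circleAverage_comp_comm h1
  have h3 : DiffContOnCl ℂ f (ball c |r|) := by
    rw [abs_of_pos hr]
    refine ⟨hf.mono ball_subset_closedBall, ?_⟩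
    rw [closure_ball c hr.ne']
    exact hf.continuousOn
  rw [h3.circleAverage] at h2
  exact h2

theorem avg_normSq (c : ℂ) {r : ℝ} (hr : 0 < r) :
    Real.circleAverage (fun z => ‖z‖ ^ 2) c r = ‖c‖ ^ 2 + r ^ 2 := by
  have h1 : Real.circleAverage (fun z => ‖z‖ ^ 2) c r =
      Real.circleAverage (fun z => Complex.reCLM
        (((r ^ 2 + ‖c‖ ^ 2 : ℝ) : ℂ) + 2 * (starRingEnd ℂ c) * (z - c))) c r := by
    apply Real.circleAverage_congr_sphere
    intro z hz
    rw [abs_of_pos hr, mem_sphere_iff_norm] at hz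
    have h2 : ‖z‖ ^ 2 = ‖z - c‖ ^ 2 + 2 * ((starRingEnd ℂ c) * (z - c)).re + ‖c‖ ^ 2 := by
      simp only [← Complex.normSq_eq_norm_sq, Complex.normSq_apply]
      simp
      ring
    simp only [Complex.reCLM_apply, Complex.add_re, Complex.ofReal_re]
    rw [h2, hz, mul_assoc 2 _ _]
    have h3 : (2 * ((starRingEnd ℂ c) * (z - c))).re = 2 * ((starRingEnd ℂ c) * (z - c)).re := by
      rw [Complex.mul_re]
      norm_num
    rw [h3]
    ring
  rw [h1, avg_lin Complex.reCLM hr (by fun_prop), sub_self, mul_zero, add_zero,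
    Complex.reCLM_apply, Complex.ofReal_re]
  ring

theorem WSub.add {f h : ℂ → ℝ} {a : ℂ} {U : Set ℂ} (hU : U ∈ 𝓝 a) (hf : WSub f a)
    (hfc : ContinuousOn f U) (hhc : ContinuousOn h U)
    (hh : ∀ᶠ r in 𝓝[>] (0:ℝ), h a ≤ Real.circleAverage h a r) : WSub (fun z => f z + h z) a := by
  intro η hη
  obtain ⟨ε, hε, hball⟩ := Metric.nhds_basis_closedBall.mem_iff.mp hU
  have hsm : ∀ᶠ r in 𝓝[>] (0:ℝ), r < ε := by
    filter_upwards [Ioo_mem_nhdsGT hε] with r hr using hr.2
  filter_upwards [hf η hη, hh, hsm, self_mem_nhdsWithin] with r h1 h2 h3 h4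
  have h4' : (0:ℝ) < r := h4
  have hs : sphere a r ⊆ U := fun z hz => hball (by
    rw [mem_closedBall]; rw [mem_sphere] at hz; rw [hz]; exact h3.le)
  rw [Real.circleAverage_fun_add (ci h4'.le (hfc.mono hs)) (ci h4'.le (hhc.mono hs))]
  linarith

/-- the weak maximum principle -/
theorem maxPrinciple {K I : Set ℂ} (hK : IsCompact K) (hI : IsOpen I) (hIK : I ⊆ K) {f : ℂ → ℝ}
    (hf : ContinuousOn f K) (hs : ∀ a ∈ I, WSub f a) (hb : ∀ a ∈ K, a ∉ I → f a ≤ 0) :
    ∀ a ∈ K, f a ≤ 0 := by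
  intro a ha
  obtain ⟨C, hC⟩ := hK.isBounded.exists_norm_le
  have hC0 : 0 ≤ C := (norm_nonneg a).trans (hC a ha)
  refine le_of_forall_pos_le_add fun ε hε => ?_
  set η : ℝ := ε / (C ^ 2 + 1) with hη
  have hη0 : 0 < η := by positivity
  have hgc : ContinuousOn (fun z => f z + η * ‖z‖ ^ 2) K := hf.add (by fun_prop)
  obtain ⟨p, hpK, hp⟩ := hK.exists_isMaxOn ⟨a, ha⟩ hgc
  have hpa : f a + η * ‖a‖ ^ 2 ≤ f p + η * ‖p‖ ^ 2 := hp ha
  by_cases hpI : p ∈ I
  · exfalso
    obtain ⟨δ, hδ, hball⟩ := Metric.nhds_basis_closedBall.mem_iff.mp (hI.mem_nhds hpI)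
    have hsm : ∀ᶠ r in 𝓝[>] (0:ℝ), r < δ := by
      filter_upwards [Ioo_mem_nhdsGT hδ] with r hr using hr.2
    obtain ⟨r, h1, h2, h3⟩ := ((hs p hpI (η / 2) (by positivity)).and
      (hsm.and self_mem_nhdsWithin)).exists
    have h3' : (0:ℝ) < r := h3
    have hsK : sphere p r ⊆ K := fun z hz => hIK (hball (by
      rw [mem_closedBall]; rw [mem_sphere] at hz; rw [hz]; exact h2.le))
    have h4 : Real.circleAverage (fun z => f z + η * ‖z‖ ^ 2) p r ≤ f p + η * ‖p‖ ^ 2 := by
      refine Real.circleAverage_mono_on_of_le_circle (ci h3'.le (hgc.mono hsK)) ?_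
      intro x hx
      rw [abs_of_pos h3'] at hx
      exact hp (hsK hx)
    have h5 : Real.circleAverage (fun z => f z + η * ‖z‖ ^ 2) p r =
        Real.circleAverage f p r + η * (‖p‖ ^ 2 + r ^ 2) := by
      rw [Real.circleAverage_fun_add (ci h3'.le (hf.mono hsK)) (ci h3'.le (by fun_prop)),
        ← avg_normSq p h3']
      congr 1
      exact Real.circleAverage_fun_smul (a := η) (f := fun z : ℂ => ‖z‖ ^ 2)
    have h6 : 0 < η * r ^ 2 := by positivity
    nlinarith
  · have h1 := hb p hpK hpI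
    have h2 : ‖p‖ ^ 2 ≤ C ^ 2 := by
      have := hC p hpK
      have := norm_nonneg p
      nlinarith
    have h3 : η * ‖p‖ ^ 2 ≤ ε := by
      have h4 : η * (C ^ 2 + 1) = ε := by rw [hη]; field_simp
      nlinarith
    have h4 : 0 ≤ η * ‖a‖ ^ 2 := by positivity
    linarith

theorem log_avg {a b : ℂ} (hab : a ≠ b) :
    ∀ᶠ r in 𝓝[>] (0:ℝ), Real.circleAverage (fun z => Real.log ‖z - b‖) a r = Real.log ‖a - b‖ := by
  have h0 : 0 < ‖a - b‖ := norm_pos_iff.mpr (sub_ne_zero.mpr hab)
  filter_upwards [Ioo_mem_nhdsGT h0] with r hr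
  refine AnalyticOnNhd.circleAverage_log_norm_of_ne_zero (g := fun z => z - b) ?_ ?_
  · intro x _
    fun_prop
  · intro u hu h
    rw [abs_of_pos hr.1, mem_closedBall, dist_eq_norm] at hu
    have : u = b := by
      have := h
      simpa [sub_eq_zero] using this
    rw [this, norm_sub_rev] at hu
    exact absurd hu (not_le.mpr hr.2)

/-- the three circles estimate -/
theorem threeCircles {q : ℂ → ℝ} {b : ℂ} {r R m κ : ℝ} (hr : 0 < r) (hrR : r < R)
    (hq : ContinuousOn q (closedBall b R))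
    (hs : ∀ a, r < ‖a - b‖ → ‖a - b‖ < R → WSub q a)
    (h1 : ∀ a, ‖a - b‖ = R → q a ≤ m) (h2 : ∀ a, ‖a - b‖ = r → q a ≤ m - κ) (a : ℂ)
    (ha1 : r ≤ ‖a - b‖) (ha2 : ‖a - b‖ ≤ R) :
    q a ≤ m - κ * ((Real.log R - Real.log ‖a - b‖) / (Real.log R - Real.log r)) := by
  have hR : 0 < R := hr.trans hrR
  have hlog : 0 < Real.log R - Real.log r := sub_pos.mpr (Real.log_lt_log hr hrR)
  set c : ℝ := κ / (Real.log R - Real.log r) with hc
  set K : Set ℂ := closedBall b R \ ball b r with hK
  set I : Set ℂ := ball b R \ closedBall b r with hI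
  have hmemK : ∀ z, z ∈ K ↔ ‖z - b‖ ≤ R ∧ r ≤ ‖z - b‖ := by
    intro z; rw [hK, Set.mem_sdiff, mem_closedBall, mem_ball, dist_eq_norm, not_lt]
  have hmemI : ∀ z, z ∈ I ↔ ‖z - b‖ < R ∧ r < ‖z - b‖ := by
    intro z; rw [hI, Set.mem_sdiff, mem_closedBall, mem_ball, dist_eq_norm, not_le]
  have hKc : IsCompact K := (isCompact_closedBall b R).diff isOpen_ball
  have hIo : IsOpen I := isOpen_ball.sdiff isClosed_closedBall
  have hIK : I ⊆ K := fun z hz => by
    rw [hmemI] at hz; rw [hmemK]; exact ⟨hz.1.le, hz.2.le⟩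
  have hlc : ∀ S : Set ℂ, (∀ z ∈ S, z ≠ b) →
      ContinuousOn (fun z : ℂ => -m + c * (Real.log R - Real.log ‖z - b‖)) S := by
    intro S hS
    refine continuousOn_const.add (continuousOn_const.mul (continuousOn_const.sub ?_))
    refine ContinuousOn.log (by fun_prop) ?_
    intro z hz
    exact (norm_pos_iff.mpr (sub_ne_zero.mpr (hS z hz))).ne'
  have hKb : ∀ z ∈ K, z ≠ b := by
    intro z hz h
    rw [hmemK] at hz
    rw [h, sub_self, norm_zero] at hz
    linarith
  have key := maxPrinciple hKc hIo hIK (f := fun z => q z + (-m + c * (Real.log R - Real.log ‖z - b‖)))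
    ((hq.mono sdiff_subset).add (hlc K hKb)) ?_ ?_ a ((hmemK a).mpr ⟨ha2, ha1⟩)
  · have h3 : c * (Real.log R - Real.log ‖a - b‖) =
        κ * ((Real.log R - Real.log ‖a - b‖) / (Real.log R - Real.log r)) := by
      rw [hc]; field_simp
    linarith
  · intro p hp
    have hp' := (hmemI p).mp hp
    have hpb := hKb p (hIK hp)
    refine WSub.add (hIo.mem_nhds hp) (hs p hp'.2 hp'.1)
      (hq.mono (hIK.trans sdiff_subset)) (hlc I fun z hz => hKb z (hIK hz)) ?_
    obtain ⟨δ, hδ, hball⟩ := Metric.nhds_basis_closedBall.mem_iff.mp (hIo.mem_nhds hp)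
    filter_upwards [log_avg hpb, Ioo_mem_nhdsGT hδ] with s h4 h5
    have hsI : sphere p s ⊆ I := fun z hz => hball (by
      rw [mem_closedBall]; rw [mem_sphere] at hz; rw [hz]; exact h5.2.le)
    have hci : CircleIntegrable (fun z : ℂ => Real.log ‖z - b‖) p s := by
      refine ci h5.1.le (ContinuousOn.log (by fun_prop) ?_)
      intro z hz
      exact (norm_pos_iff.mpr (sub_ne_zero.mpr (hKb z (hIK (hsI hz))))).ne'
    have e1 : (fun z : ℂ => -m + c * (Real.log R - Real.log ‖z - b‖)) =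
        fun z : ℂ => (-m + c * Real.log R) + (-c) • Real.log ‖z - b‖ := by
      funext z; rw [smul_eq_mul]; ring
    rw [e1, Real.circleAverage_fun_add (circleIntegrable_const _ _ _) (hci.const_fun_smul),
      Real.circleAverage_const, Real.circleAverage_fun_smul, h4, smul_eq_mul]
    linarith
  · intro p hp hpI
    have hp' := (hmemK p).mp hp
    rw [hmemI] at hpI
    by_cases h5 : ‖p - b‖ < R
    · have h6 : ‖p - b‖ = r := by
        by_contra h
        exact hpI ⟨h5, lt_of_le_of_ne hp'.2 (Ne.symm h)⟩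
      have h7 := h2 p h6
      have h8 : c * (Real.log R - Real.log r) = κ := by rw [hc]; field_simp
      rw [h6]
      linarith
    · have h6 : ‖p - b‖ = R := le_antisymm hp'.1 (not_lt.mp h5)
      have h7 := h1 p h6
      rw [h6, sub_self, mul_zero]
      linarith

/-- Liouville's theorem -/
theorem liouville {q : ℂ → ℝ} (hq : Continuous q) (hs : ∀ a, WSub q a) {M : ℝ}
    (hM : ∀ a, q a ≤ M) (t b : ℂ) : q t ≤ q b := by
  by_cases htb : t = b
  · rw [htb]
  have h0 : 0 < ‖t - b‖ := norm_pos_iff.mpr (sub_ne_zero.mpr htb)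
  refine le_of_forall_pos_le_add fun ε hε => ?_
  obtain ⟨δ, hδ, hδq⟩ := Metric.continuousAt_iff.mp (hq.continuousAt (x := b)) ε hε
  set r : ℝ := min (δ / 2) (‖t - b‖ / 2) with hr
  have hr0 : 0 < r := lt_min (by positivity) (by positivity)
  have hrt : r < ‖t - b‖ := (min_le_right _ _).trans_lt (by linarith)
  have hrδ : r < δ := (min_le_left _ _).trans_lt (by linarith)
  have hin : ∀ a, ‖a - b‖ = r → q a ≤ M - (M - (q b + ε)) := by
    intro a ha
    have h1 := hδq (x := a) (by rw [dist_eq_norm, ha]; exact hrδ)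
    rw [Real.dist_eq] at h1
    have := (abs_lt.mp h1).2
    linarith
  have hlim : Tendsto (fun R : ℝ => M - (M - (q b + ε)) *
      ((Real.log R - Real.log ‖t - b‖) / (Real.log R - Real.log r))) atTop
      (𝓝 (M - (M - (q b + ε)) * 1)) := by
    refine tendsto_const_nhds.sub (tendsto_const_nhds.mul ?_)
    have h1 : ∀ᶠ R in atTop, 1 - (Real.log ‖t - b‖ - Real.log r) / (Real.log R - Real.log r) =
        (Real.log R - Real.log ‖t - b‖) / (Real.log R - Real.log r) := by
      filter_upwards [eventually_gt_atTop r] with R hR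
      have : 0 < Real.log R - Real.log r := sub_pos.mpr (Real.log_lt_log hr0 hR)
      field_simp
      ring
    refine Tendsto.congr' h1 ?_
    have h2 : Tendsto (fun R : ℝ => (Real.log ‖t - b‖ - Real.log r) / (Real.log R - Real.log r))
        atTop (𝓝 0) :=
      tendsto_const_nhds.div_atTop (tendsto_atTop_add_const_right _ _ Real.tendsto_log_atTop)
    simpa using tendsto_const_nhds.sub h2
  have hle : ∀ᶠ R in atTop, q t ≤ M - (M - (q b + ε)) *
      ((Real.log R - Real.log ‖t - b‖) / (Real.log R - Real.log r)) := by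
    filter_upwards [eventually_ge_atTop (‖t - b‖ + 1)] with R hR
    exact threeCircles hr0 (by linarith) hq.continuousOn (fun a _ _ => hs a) (fun a _ => hM a)
      hin t hrt.le (by linarith)
  have := le_of_tendsto_of_tendsto tendsto_const_nhds hlim hle
  linarith

/-- a function which is at most `c` on the unit circle and `c` at an interior point cannot be
less than `c` at the centre -/
theorem disc_center {q : ℂ → ℝ} (hq : ContinuousOn q (closedBall 0 1))
    (hs : ∀ a, ‖a‖ < 1 → WSub q a) {c : ℝ} (h1 : ∀ a, ‖a‖ = 1 → q a = c) {p : ℂ} (hp0 : p ≠ 0)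
    (hp1 : ‖p‖ < 1) (hp : q p = c) : (∀ a, ‖a‖ ≤ 1 → q a ≤ c) ∧ q 0 = c := by
  have hle : ∀ a, ‖a‖ ≤ 1 → q a ≤ c := by
    intro a ha
    have := maxPrinciple (isCompact_closedBall (0:ℂ) 1) (isOpen_ball (x := (0:ℂ)) (ε := 1))
      ball_subset_closedBall (f := fun z => q z + (-c)) (hq.add continuousOn_const) ?_ ?_ a
      (by simpa using ha)
    · linarith
    · intro x hx
      refine WSub.add (isOpen_ball.mem_nhds hx) (hs x (by simpa using hx))
        (hq.mono ball_subset_closedBall) continuousOn_const ?_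
      refine Eventually.of_forall fun r => ?_
      rw [Real.circleAverage_const]
    · intro x hx hx'
      have h2 : ‖x‖ = 1 := by
        rw [mem_closedBall, dist_zero_right] at hx
        rw [mem_ball, dist_zero_right, not_lt] at hx'
        exact le_antisymm hx hx'
      have := h1 x h2
      linarith
  refine ⟨hle, ?_⟩
  by_contra hne
  have hlt : q 0 < c := lt_of_le_of_ne (hle 0 (by simp)) hne
  have hp0' : 0 < ‖p‖ := norm_pos_iff.mpr hp0
  have hcont : ContinuousWithinAt q (closedBall 0 1) 0 := hq 0 (by simp)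
  obtain ⟨δ, hδ, hδq⟩ := Metric.continuousWithinAt_iff.mp hcont ((c - q 0) / 2) (by linarith)
  set r : ℝ := min (δ / 2) (‖p‖ / 2) with hr
  have hr0 : 0 < r := lt_min (by positivity) (by positivity)
  have hrp : r < ‖p‖ := (min_le_right _ _).trans_lt (by linarith)
  have hrδ : r < δ := (min_le_left _ _).trans_lt (by linarith)
  have h3 := threeCircles (q := q) (b := 0) (r := r) (R := 1) (m := c) (κ := (c - q 0) / 2) hr0
    (by linarith) hq (fun a _ ha => hs a (by simpa using ha))
    (fun a ha => (h1 a (by simpa using ha)).le) ?_ p (by simpa using hrp.le)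
    (by simpa using hp1.le)
  · rw [hp, sub_zero, Real.log_one, zero_sub, zero_sub] at h3
    have h4 : Real.log ‖p‖ < 0 := Real.log_neg hp0' hp1
    have h5 : Real.log r < 0 := Real.log_neg hr0 (by linarith)
    have h6 : 0 < (c - q 0) / 2 * (-Real.log ‖p‖ / -Real.log r) := by
      refine mul_pos (by linarith) (div_pos (by linarith) (by linarith))
    linarith
  · intro a ha
    rw [sub_zero] at ha
    have h7 := hδq (x := a) (by
      rw [mem_closedBall, dist_zero_right, ha]; linarith) (by rw [dist_zero_right, ha]; exact hrδ)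
    rw [Real.dist_eq] at h7
    have := (abs_lt.mp h7).2
    linarith

end Pool.Agent.U501.CS
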